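import Pool.Agent.MP_e97151_al.Mg.Prof

set_option autoImplicit false

namespace Pool.Agent.Results.MP_e97151_al.UpWeak

open Pool.Agent.MP_e97151_al

/-- Having more than one end is an up-weak profinite property. -/
theorem result (G H : Type) [Group G] [Group H] [Group.ResiduallyFinite G]
    [Group.ResiduallyFinite H] (S : Finset G) (T : Finset H)
    (hS : Subgroup.closure (S : Set G) = ⊤) (hT : Subgroup.closure (T : Set H) = ⊤)
    (u : G →* H) (hu : Function.Injective u)
    (hiso : CategoryTheory.IsIso (ProfiniteGrp.profiniteCompletion.map (GrpCat.ofHom u)))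
    (hG : (SimpleGraph.mulCayley (S : Set G)).componentComplFunctor.sections.Nontrivial) :
    (SimpleGraph.mulCayley (T : Set H)).componentComplFunctor.sections.Nontrivial := by
  rw [cayley_eq, ← Set.nontrivial_coe_sort] at *
  exact ends_of_ai T hT (ai_up ⟨⟨S, hS⟩⟩ ⟨⟨T, hT⟩⟩ (rf_of_residuallyFinite G)
    (rf_of_residuallyFinite H) u hu (gp_of_isIso u hiso) (ai_of_ends S hS hG))

end Pool.Agent.Results.MP_e97151_al.UpWeak
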